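import Mathlib

set_option autoImplicit false

namespace Pool.Agent.H534Z.WInf

open MvPolynomial

variable {F : Type} [Field F]

abbrev A (F : Type) [Field F] := MvPolynomial ℕ F
abbrev Der (F : Type) [Field F] := Derivation F (A F) (A F)

/-- derivations moving finitely many variables -/
def Fn (d : Der F) : Prop := Set.Finite {i : ℕ | d (X i) ≠ 0}

noncomputable abbrev P (i : ℕ) : Der F := pderiv i

lemma Fn.zero : Fn (0 : Der F) := by simp [Fn]

lemma Fn.add {d e : Der F} (hd : Fn d) (he : Fn e) : Fn (d + e) := by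
  refine (Set.Finite.union hd he).subset ?_
  intro i hi
  by_contra h
  simp only [Set.mem_union, Set.mem_ofPred_eq, not_or, not_not] at h
  exact hi (by simp [h.1, h.2])

lemma Fn.smul {d : Der F} (a : A F) (hd : Fn d) : Fn (a • d) := by
  refine Set.Finite.subset hd ?_
  intro i hi h
  exact hi (by simp [h])

lemma Fn.csmul {d : Der F} (c : F) (hd : Fn d) : Fn (c • d) := by
  refine Set.Finite.subset hd ?_
  intro i hi h
  exact hi (by simp [h])

lemma Fn.neg {d : Der F} (hd : Fn d) : Fn (-d) := by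
  refine Set.Finite.subset hd ?_
  intro i hi h
  exact hi (by simp [h])

lemma Fn.sub {d e : Der F} (hd : Fn d) (he : Fn e) : Fn (d - e) := by
  rw [sub_eq_add_neg]; exact hd.add he.neg

lemma Fn.lie {d e : Der F} (hd : Fn d) (he : Fn e) : Fn ⁅d, e⁆ := by
  refine (Set.Finite.union hd he).subset ?_
  intro i hi
  by_contra h
  simp only [Set.mem_union, Set.mem_ofPred_eq, not_or, not_not] at h
  exact hi (by simp [Derivation.commutator_apply, h.1, h.2])

lemma Fn.sum {ι : Type} (s : Finset ι) (u : ι → Der F) (h : ∀ i ∈ s, Fn (u i)) :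
    Fn (∑ i ∈ s, u i) := by
  classical
  induction s using Finset.induction_on with
  | empty => simpa using Fn.zero
  | insert a s ha ih =>
    rw [Finset.sum_insert ha]
    exact (h a (Finset.mem_insert_self _ _)).add
      (ih fun i hi => h i (Finset.mem_insert_of_mem hi))

lemma P_X (i j : ℕ) : (P i : Der F) (X j) = if i = j then 1 else 0 := by
  by_cases h : i = j
  · subst h; simp
  · simp [h, pderiv_X_of_ne (Ne.symm h)]

lemma Fn.P (i : ℕ) : Fn (P i : Der F) := by
  refine (Set.finite_singleton i).subset ?_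
  intro j hj
  by_contra h
  apply hj
  rw [P_X, if_neg (fun e => h (by simp [e]))]

lemma lie_smul' (d e : Der F) (a : A F) : ⁅d, a • e⁆ = d a • e + a • ⁅d, e⁆ := by
  ext1 x
  simp [Derivation.commutator_apply]
  ring

lemma smul_lie' (d e : Der F) (a : A F) : ⁅a • d, e⁆ = a • ⁅d, e⁆ - e a • d := by
  ext1 x
  simp [Derivation.commutator_apply]
  ring

lemma sum_apply' {ι : Type} (s : Finset ι) (u : ι → Der F) (x : A F) :
    (∑ i ∈ s, u i) x = ∑ i ∈ s, u i x := by
  classical
  induction s using Finset.induction_on with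
  | empty => simp
  | insert a s ha ih => rw [Finset.sum_insert ha, Finset.sum_insert ha, Derivation.add_apply, ih]

lemma lie_P_X (i j : ℕ) (u : Der F) : ⁅(P i : Der F), u⁆ (X j) = P i (u (X j)) := by
  rw [Derivation.commutator_apply, P_X]
  split_ifs <;> simp

lemma P_lie_P (i j : ℕ) : ⁅(P i : Der F), (P j : Der F)⁆ = 0 := by
  apply derivation_ext
  intro k
  rw [lie_P_X, P_X]
  split_ifs <;> simp

lemma P_lie_smul (i k : ℕ) (f : A F) : ⁅(P i : Der F), f • (P k : Der F)⁆ = P i f • P k := by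
  rw [lie_smul', P_lie_P, smul_zero, add_zero]

lemma P_ne_zero (i : ℕ) : (P i : Der F) ≠ 0 := by
  intro h
  have := P_X (F := F) i i
  rw [h] at this
  simp at this

noncomputable def Fn.supp {u : Der F} (hu : Fn u) : Finset ℕ := Set.Finite.toFinset hu

lemma Fn.mem_supp {u : Der F} (hu : Fn u) (j : ℕ) : j ∈ hu.supp ↔ u (X j) ≠ 0 :=
  Set.Finite.mem_toFinset hu

lemma eq_sum {u : Der F} (hu : Fn u) : u = ∑ j ∈ hu.supp, u (X j) • (P j : Der F) := by
  apply derivation_ext
  intro k
  rw [sum_apply']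
  simp only [Derivation.smul_apply, P_X, smul_eq_mul, mul_ite, mul_one, mul_zero]
  rw [Finset.sum_ite_eq']
  split_ifs with h
  · rfl
  · simpa [hu.mem_supp] using h

lemma notMem_vars [CharZero F] {f : A F} {n : ℕ} (h : (P n : Der F) f = 0) : n ∉ f.vars := by
  classical
  intro hn
  rw [mem_vars_iff_mem_support] at hn
  obtain ⟨m, hm, hnm⟩ := hn
  have h1 := coeff_pderiv (i := n) f (m - Finsupp.single n 1)
  have hle : Finsupp.single n 1 ≤ m := by
    rw [Finsupp.single_le_iff]
    exact Nat.one_le_iff_ne_zero.2 (Finsupp.mem_support_iff.1 hnm)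
  rw [tsub_add_cancel_of_le hle, h, coeff_zero] at h1
  have h2 : ((((m - Finsupp.single n 1 : ℕ →₀ ℕ) n : ℕ) : F) + 1) ≠ 0 := by
    exact Nat.cast_add_one_ne_zero _
  rcases mul_eq_zero.1 h1.symm with h3 | h3
  · exact (mem_support_iff.1 hm) h3
  · exact h2 h3

lemma const_of_P [CharZero F] {f : A F} (h : ∀ n, (P n : Der F) f = 0) : ∃ c, f = C c :=
  ⟨_, vars_eq_empty_iff_eq_C.1 (Finset.eq_empty_of_forall_notMem fun n => notMem_vars (h n))⟩

/-- all words of length `n` in the family `D` kill `a` -/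
def Nil (D : ℕ → Der F) : ℕ → A F → Prop
  | 0, a => a = 0
  | n + 1, a => ∀ i, Nil D n (D i a)

lemma Nil.zero (D : ℕ → Der F) : ∀ n, Nil D n 0
  | 0 => rfl
  | n + 1 => fun i => by rw [map_zero]; exact Nil.zero D n

lemma Nil.succ {D : ℕ → Der F} : ∀ {n : ℕ} {a : A F}, Nil D n a → Nil D (n + 1) a
  | 0, a, h => by rw [show a = 0 from h]; exact Nil.zero D _
  | _ + 1, _, h => fun i => Nil.succ (h i)

lemma Nil.mono {D : ℕ → Der F} {n m : ℕ} {a : A F} (h : Nil D n a) (hnm : n ≤ m) : Nil D m a := by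
  induction hnm with
  | refl => exact h
  | step _ ih => exact ih.succ

lemma Nil.add {D : ℕ → Der F} : ∀ {n : ℕ} {a b : A F}, Nil D n a → Nil D n b → Nil D n (a + b)
  | 0, a, b, h, h' => by
      rw [show a = 0 from h, show b = 0 from h', add_zero]; exact Nil.zero D _
  | _ + 1, _, _, h, h' => fun i => by rw [map_add]; exact Nil.add (h i) (h' i)

lemma Nil.mul_X : ∀ {n : ℕ} {a : A F} (j : ℕ), Nil P n a → Nil P (n + 1) (a * X j)
  | 0, a, j, h => by rw [show a = 0 from h, zero_mul]; exact Nil.zero _ _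
  | n + 1, a, j, h => fun i => by
      rw [Derivation.leibniz, P_X]
      refine Nil.add ?_ ?_
      · split_ifs
        · simpa using h
        · simpa using Nil.zero _ _
      · rw [smul_eq_mul, mul_comm]
        exact Nil.mul_X j (h i)

lemma exists_nil (f : A F) : ∃ n, Nil P n f := by
  induction f using MvPolynomial.induction_on with
  | C a => exact ⟨1, fun i => by simp [Nil]⟩
  | add p q hp hq =>
    obtain ⟨n, hn⟩ := hp
    obtain ⟨m, hm⟩ := hq
    exact ⟨max n m, (hn.mono (le_max_left _ _)).add (hm.mono (le_max_right _ _))⟩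
  | mul_X p n hp =>
    obtain ⟨m, hm⟩ := hp
    exact ⟨m + 1, hm.mul_X n⟩

lemma exists_nil_der {u : Der F} (hu : Fn u) : ∃ n, ∀ j, Nil P n (u (X j)) := by
  choose N hN using exists_nil (F := F)
  refine ⟨hu.supp.sup fun j => N (u (X j)), fun j => ?_⟩
  by_cases h : u (X j) = 0
  · rw [h]; exact Nil.zero _ _
  · exact (hN _).mono (Finset.le_sup (f := fun j => N (u (X j))) ((hu.mem_supp j).2 h))

end Pool.Agent.H534Z.WInf
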