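import Pool.Agent.H534Z.WInf1

set_option autoImplicit false

namespace Pool.Agent.H534Z.WInf

open MvPolynomial

variable {F : Type} [Field F]

lemma lie_sum' {ι : Type} (d : Der F) (s : Finset ι) (u : ι → Der F) :
    ⁅d, ∑ i ∈ s, u i⁆ = ∑ i ∈ s, ⁅d, u i⁆ := by
  refine Derivation.ext fun x => ?_
  simp [sum_apply', Derivation.commutator_apply, Finset.sum_sub_distrib]

lemma sum_lie' {ι : Type} (d : Der F) (s : Finset ι) (u : ι → Der F) :
    ⁅∑ i ∈ s, u i, d⁆ = ∑ i ∈ s, ⁅u i, d⁆ := by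
  refine Derivation.ext fun x => ?_
  simp [sum_apply', Derivation.commutator_apply, Finset.sum_sub_distrib]

lemma lie_zero' (d : Der F) : ⁅d, (0 : Der F)⁆ = 0 := by
  refine Derivation.ext fun x => ?_
  simp [Derivation.commutator_apply]

lemma zero_lie' (d : Der F) : ⁅(0 : Der F), d⁆ = 0 := by
  refine Derivation.ext fun x => ?_
  simp [Derivation.commutator_apply]

lemma sub_smul' (a b : A F) (d : Der F) : (a - b) • d = a • d - b • d := by
  refine Derivation.ext fun x => ?_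
  simp [sub_mul]

lemma lie_sub' (d e u : Der F) : ⁅d, e - u⁆ = ⁅d, e⁆ - ⁅d, u⁆ := by
  refine Derivation.ext fun x => ?_
  simp only [Derivation.commutator_apply, Derivation.sub_apply, map_sub]
  ring

lemma lie_add' (d e u : Der F) : ⁅d, e + u⁆ = ⁅d, e⁆ + ⁅d, u⁆ := by
  refine Derivation.ext fun x => ?_
  simp only [Derivation.commutator_apply, Derivation.add_apply, map_add]
  ring

lemma lie_skew' (d e : Der F) : ⁅d, e⁆ = -⁅e, d⁆ := by
  refine Derivation.ext fun x => ?_
  simp only [Derivation.commutator_apply, Derivation.neg_apply]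
  ring

lemma smul_eq_zero' {b : A F} {d : Der F} (h : b • d = 0) (hd : d ≠ 0) : b = 0 := by
  by_contra hb
  apply hd
  refine Derivation.ext fun x => ?_
  have := congrArg (fun u : Der F => u x) h
  simpa [hb] using this

structure Setup (θ : Der F → Der F) : Prop where
  fn : ∀ d, Fn d → Fn (θ d)
  surj : ∀ e, Fn e → ∃ d, Fn d ∧ θ d = e
  inj : ∀ d e, Fn d → Fn e → θ d = θ e → d = e
  add : ∀ d e, Fn d → Fn e → θ (d + e) = θ d + θ e
  lie : ∀ d e, Fn d → Fn e → θ ⁅d, e⁆ = ⁅θ d, θ e⁆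
  smul : ∀ (c : F) d, Fn d → θ (c • d) = c • θ d

namespace Setup

variable {θ : Der F → Der F}

lemma zero (S : Setup θ) : θ 0 = 0 := by
  have := S.smul 0 0 Fn.zero
  simpa using this

lemma eq_zero (S : Setup θ) {d : Der F} (hd : Fn d) (h : θ d = 0) : d = 0 :=
  S.inj d 0 hd Fn.zero (by rw [h, S.zero])

lemma sum (S : Setup θ) {ι : Type} (s : Finset ι) (u : ι → Der F) (h : ∀ i ∈ s, Fn (u i)) :
    θ (∑ i ∈ s, u i) = ∑ i ∈ s, θ (u i) := by
  classical
  induction s using Finset.induction_on with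
  | empty => simpa using S.zero
  | insert a s ha ih =>
    have h' : ∀ i ∈ s, Fn (u i) := fun i hi => h i (Finset.mem_insert_of_mem hi)
    rw [Finset.sum_insert ha, Finset.sum_insert ha,
      S.add _ _ (h a (Finset.mem_insert_self _ _)) (Fn.sum s u h'), ih h']

lemma Csmul (S : Setup θ) (c : F) {d : Der F} (hd : Fn d) :
    θ ((C c : A F) • d) = (C c : A F) • θ d := by
  have e : ∀ u : Der F, (C c : A F) • u = c • u := fun u => by
    ext1 x; simp [smul_eq_C_mul]
  rw [e, e, S.smul c d hd]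

end Setup

/-- the images of the partial derivatives -/
noncomputable def D (θ : Der F → Der F) (i : ℕ) : Der F := θ (P i)

namespace Setup

variable {θ : Der F → Der F}

lemma D_fn (S : Setup θ) (i : ℕ) : Fn (D θ i) := S.fn _ (Fn.P i)

lemma D_ne (S : Setup θ) (i : ℕ) : D θ i ≠ 0 := fun h => P_ne_zero i (S.eq_zero (Fn.P i) h)

lemma D_lie (S : Setup θ) (i : ℕ) {u : Der F} (hu : Fn u) : ⁅D θ i, θ u⁆ = θ ⁅(P i : Der F), u⁆ :=
  (S.lie _ _ (Fn.P i) hu).symm

lemma D_lie_D (S : Setup θ) (i j : ℕ) : ⁅D θ i, D θ j⁆ = 0 := by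
  rw [D, D, ← S.lie _ _ (Fn.P i) (Fn.P j), P_lie_P, S.zero]

lemma D_lie_smul (S : Setup θ) (i k : ℕ) (f : A F) :
    ⁅D θ i, θ (f • (P k : Der F))⁆ = θ (P i f • (P k : Der F)) := by
  rw [S.D_lie i ((Fn.P k).smul f), P_lie_smul]

lemma D_lie_X (S : Setup θ) (i p q : ℕ) :
    ⁅D θ i, θ ((X p : A F) • (P q : Der F))⁆ = if i = p then D θ q else 0 := by
  rw [S.D_lie_smul, P_X]
  split_ifs
  · rw [one_smul]; rfl
  · rw [zero_smul, S.zero]

lemma D_lie_sum (S : Setup θ) (j : ℕ) (s : Finset ℕ) (a : ℕ → A F) :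
    ⁅D θ j, ∑ i ∈ s, a i • D θ i⁆ = ∑ i ∈ s, D θ j (a i) • D θ i := by
  rw [lie_sum']
  refine Finset.sum_congr rfl fun i _ => ?_
  rw [lie_smul', S.D_lie_D, smul_zero, add_zero]

/-- the centraliser of the `D i` -/
lemma central [CharZero F] (S : Setup θ) {w : Der F} (hw : Fn w) (h : ∀ i, ⁅D θ i, w⁆ = 0) :
    ∃ (s : Finset ℕ) (c : ℕ → F), w = ∑ i ∈ s, (C (c i) : A F) • D θ i := by
  obtain ⟨u, hu, rfl⟩ := S.surj w hw
  have h1 : ∀ j, ∃ c, u (X j) = C c := by
    intro j
    apply const_of_P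
    intro n
    have h2 : ⁅(P n : Der F), u⁆ = 0 :=
      S.eq_zero ((Fn.P n).lie hu) (by rw [← S.D_lie n hu, h])
    rw [← lie_P_X, h2]; rfl
  choose c hc using h1
  refine ⟨hu.supp, c, ?_⟩
  conv_lhs => rw [eq_sum hu]
  rw [S.sum _ _ fun i _ => (Fn.P i).smul _]
  refine Finset.sum_congr rfl fun i _ => ?_
  rw [hc, S.Csmul _ (Fn.P i)]; rfl

lemma sum_lie_of (S : Setup θ) (s : Finset ℕ) (a : ℕ → A F) (E : Der F) :
    ⁅∑ i ∈ s, a i • D θ i, E⁆ = ∑ i ∈ s, a i • ⁅D θ i, E⁆ - ∑ i ∈ s, E (a i) • D θ i := by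
  have _ := S
  rw [sum_lie', ← Finset.sum_sub_distrib]
  exact Finset.sum_congr rfl fun i _ => smul_lie' _ _ _

theorem indep [CharZero F] (S : Setup θ) (s : Finset ℕ) :
    ∀ a : ℕ → A F, ∑ i ∈ s, a i • D θ i = 0 → ∀ i ∈ s, a i = 0 := by
  classical
  induction s using Finset.strongInduction with
  | H s ih =>
  intro a ha k hk
  by_contra hak
  -- ratios are killed by all `D j`
  have h1 : ∀ j, ∀ i ∈ s, a k * D θ j (a i) - a i * D θ j (a k) = 0 := by
    intro j
    have e1 : ∑ i ∈ s, D θ j (a i) • D θ i = 0 := by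
      rw [← S.D_lie_sum, ha, lie_zero']
    have e2 : ∑ i ∈ s, (a k * D θ j (a i) - a i * D θ j (a k)) • D θ i = 0 := by
      have : ∑ i ∈ s, (a k * D θ j (a i) - a i * D θ j (a k)) • D θ i
          = a k • ∑ i ∈ s, D θ j (a i) • D θ i - D θ j (a k) • ∑ i ∈ s, a i • D θ i := by
        rw [Finset.smul_sum, Finset.smul_sum, ← Finset.sum_sub_distrib]
        refine Finset.sum_congr rfl fun i _ => ?_
        rw [sub_smul', smul_smul, smul_smul, mul_comm (D θ j (a k))]
      rw [this, e1, ha, smul_zero, smul_zero, sub_zero]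
    rw [← Finset.add_sum_erase _ _ hk, sub_self, zero_smul, zero_add] at e2
    have e3 := ih (s.erase k) (Finset.erase_ssubset hk) _ e2
    intro i hi
    by_cases hik : i = k
    · rw [hik, sub_self]
    · exact e3 i (Finset.mem_erase.2 ⟨hik, hi⟩)
  set H := θ ((X k : A F) • (P k : Der F)) with hH
  set Q := θ ((X k * X k : A F) • (P k : Der F)) with hQ
  have hDH : ∀ i, ⁅D θ i, H⁆ = if i = k then D θ k else 0 := fun i => S.D_lie_X i k k
  have hDQ : ∀ i, ⁅D θ i, Q⁆ = if i = k then (2 : A F) • H else 0 := by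
    intro i
    rw [hQ, S.D_lie_smul, Derivation.leibniz, P_X]
    split_ifs
    · rw [smul_eq_mul, mul_one, add_smul, S.add _ _ ((Fn.P k).smul _) ((Fn.P k).smul _), two_smul]
    · simp [S.zero]
  have h2 : (a k * 2) • H = ∑ i ∈ s, Q (a i) • D θ i := by
    have := S.sum_lie_of s a Q
    rw [ha, zero_lie'] at this
    simp only [hDQ, smul_ite, smul_zero, Finset.sum_ite_eq', if_pos hk] at this
    rw [mul_smul]
    exact (sub_eq_zero.1 this.symm)
  have h3 : a k • D θ k = ∑ i ∈ s, H (a i) • D θ i := by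
    have := S.sum_lie_of s a H
    rw [ha, zero_lie'] at this
    simp only [hDH, smul_ite, smul_zero, Finset.sum_ite_eq', if_pos hk] at this
    exact (sub_eq_zero.1 this.symm)
  have h2ne : (a k * 2 : A F) ≠ 0 := mul_ne_zero hak two_ne_zero
  have h4 : ∀ i ∈ s, a k * H (a i) = a i * H (a k) := by
    intro i hi
    apply mul_left_cancel₀ h2ne
    have e : ∀ x : A F, a k * 2 * H x = ∑ l ∈ s, Q (a l) * D θ l x := by
      intro x
      have := congrArg (fun u : Der F => u x) h2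
      simpa [sum_apply'] using this
    calc a k * 2 * (a k * H (a i)) = a k * (a k * 2 * H (a i)) := by ring
      _ = ∑ l ∈ s, Q (a l) * (a k * D θ l (a i)) := by
          rw [e, Finset.mul_sum]; exact Finset.sum_congr rfl fun l _ => by ring
      _ = ∑ l ∈ s, Q (a l) * (a i * D θ l (a k)) :=
          Finset.sum_congr rfl fun l _ => by rw [sub_eq_zero.1 (h1 l i hi)]
      _ = a i * (a k * 2 * H (a k)) := by
          rw [e, Finset.mul_sum]; exact Finset.sum_congr rfl fun l _ => by ring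
      _ = a k * 2 * (a i * H (a k)) := by ring
  have h5 : (a k * a k) • D θ k = 0 := by
    rw [mul_smul, h3, Finset.smul_sum]
    have : ∑ i ∈ s, a k • H (a i) • D θ i = H (a k) • ∑ i ∈ s, a i • D θ i := by
      rw [Finset.smul_sum]
      refine Finset.sum_congr rfl fun i hi => ?_
      rw [smul_smul, smul_smul, h4 i hi, mul_comm]
    rw [this, ha, smul_zero]
  exact mul_ne_zero hak hak (smul_eq_zero' h5 (S.D_ne k))

/-- comparing coefficients -/
lemma coef [CharZero F] (S : Setup θ) {s : Finset ℕ} {a : ℕ → A F} {b : A F} {k : ℕ}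
    (h : b • D θ k = ∑ i ∈ s, a i • D θ i) :
    (b = if k ∈ s then a k else 0) ∧ ∀ i ∈ s, i ≠ k → a i = 0 := by
  classical
  have h1 : ∑ i ∈ insert k s,
      ((if i ∈ s then a i else 0) - (if i = k then b else 0)) • D θ i = 0 := by
    simp only [sub_smul', Finset.sum_sub_distrib, ite_smul, zero_smul, Finset.sum_ite_eq',
      Finset.mem_insert_self, if_true]
    rw [← Finset.sum_filter, h, sub_eq_zero]
    congr 1
    ext i
    simp only [Finset.mem_filter, Finset.mem_insert]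
    tauto
  have h2 := S.indep _ _ h1
  constructor
  · have := h2 k (Finset.mem_insert_self _ _)
    simp only [if_true] at this
    exact (sub_eq_zero.1 this).symm
  · intro i hi hik
    have := h2 i (Finset.mem_insert_of_mem hi)
    simpa [hi, hik] using this

lemma smul_D_eq_zero (S : Setup θ) {b : A F} {k : ℕ} (h : b • D θ k = 0) : b = 0 :=
  smul_eq_zero' h (S.D_ne k)

lemma const [CharZero F] (S : Setup θ) {a : A F} (h : ∀ i, D θ i a = 0) : ∃ c, a = C c := by
  obtain ⟨s, c, hc⟩ := S.central ((S.D_fn 0).smul a) (fun i => by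
    rw [lie_smul', h, S.D_lie_D, zero_smul, smul_zero, add_zero])
  have := (S.coef hc).1
  split_ifs at this
  · exact ⟨_, this⟩
  · exact ⟨0, by simpa using this⟩

lemma nil_aux (S : Setup θ) : ∀ (n : ℕ) (u : Der F), Fn u → (∀ j, Nil P n (u (X j))) →
    ∀ a : A F, θ u = a • D θ 0 → Nil (D θ) n a
  | 0, u, _, h, a, ha => by
      have : u = 0 := derivation_ext fun j => h j
      rw [this, S.zero] at ha
      exact S.smul_D_eq_zero ha.symm
  | n + 1, u, hu, h, a, ha => fun i => by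
      refine nil_aux S n ⁅(P i : Der F), u⁆ ((Fn.P i).lie hu) (fun j => ?_) _ ?_
      · rw [lie_P_X]; exact h j i
      · rw [← S.D_lie i hu, ha, lie_smul', S.D_lie_D, smul_zero, add_zero]

lemma nil (S : Setup θ) (a : A F) : ∃ n, Nil (D θ) n a := by
  obtain ⟨u, hu, ha⟩ := S.surj _ ((S.D_fn 0).smul a)
  obtain ⟨n, hn⟩ := exists_nil_der hu
  exact ⟨n, S.nil_aux n u hu hn a ha⟩

lemma deg_one_aux [CharZero F] (S : Setup θ) : ∀ (n : ℕ) (a : A F), Nil (D θ) n a →
    (∃ i, D θ i a ≠ 0) → ∃ b : A F, (∀ i, ∃ c, D θ i b = C c) ∧ ∃ q, D θ q b ≠ 0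
  | 0, a, h, ⟨i, hi⟩ => by rw [show a = 0 from h, map_zero] at hi; exact absurd rfl hi
  | n + 1, a, h, hi => by
      by_cases h1 : ∀ j k, D θ k (D θ j a) = 0
      · exact ⟨a, fun j => S.const (h1 j), hi⟩
      · push Not at h1
        obtain ⟨j, k, hjk⟩ := h1
        exact deg_one_aux S n _ (h j) ⟨k, hjk⟩

lemma slices0 [CharZero F] (S : Setup θ) :
    ∃ y : ℕ → A F, ∀ i p, D θ i (y p) = if i = p then 1 else 0 := by
  obtain ⟨n, hn⟩ := S.nil (X 0)
  have h0 : ∃ i, D θ i (X 0) ≠ 0 := by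
    by_contra h
    push Not at h
    obtain ⟨c, hc⟩ := S.const h
    have := congrArg (fun f : A F => (P 0 : Der F) f) hc
    simp at this
  obtain ⟨b, hb, q, hq⟩ := S.deg_one_aux n _ hn h0
  obtain ⟨c, hc⟩ := hb q
  have hc0 : c ≠ 0 := by
    rintro rfl
    exact hq (by simpa using hc)
  refine ⟨fun p => c⁻¹ • θ ((X p : A F) • (P q : Der F)) b, fun i p => ?_⟩
  have h1 := congrArg (fun u : Der F => u b) (S.D_lie_X i p q)
  obtain ⟨c', hc'⟩ := hb i
  simp only [Derivation.commutator_apply, hc', derivation_C, sub_zero] at h1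
  rw [Derivation.map_smul, h1]
  split_ifs
  · rw [hc, smul_eq_C_mul, ← C_mul, inv_mul_cancel₀ hc0, C_1]
  · simp

end Setup

end Pool.Agent.H534Z.WInf
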