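import Pool.Agent.H534Z.WInf2

set_option autoImplicit false

namespace Pool.Agent.H534Z.WInf

open MvPolynomial

variable {F : Type} [Field F]

/-- the images of the Euler fields -/
noncomputable def H (θ : Der F → Der F) (r : ℕ) : Der F := θ ((X r : A F) • (P r : Der F))

lemma euler_lie (r k : ℕ) (f : A F) :
    ⁅(X r : A F) • (P r : Der F), f • (P k : Der F)⁆
      = (X r * P r f - if r = k then f else 0) • (P k : Der F) := by
  rw [lie_smul', smul_lie', P_lie_P, smul_zero, zero_sub, P_X, sub_smul']
  by_cases h : r = k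
  · subst h
    simp [sub_eq_add_neg]
  · simp [h, Ne.symm h]

namespace Setup

variable {θ : Der F → Der F}

lemma H_lie_D (S : Setup θ) (r i : ℕ) : ⁅H θ r, D θ i⁆ = if i = r then -D θ r else 0 := by
  rw [lie_skew', H, S.D_lie_X]
  split_ifs <;> simp

lemma H_lie_const (S : Setup θ) (r : ℕ) (s : Finset ℕ) (c : ℕ → F) :
    ⁅H θ r, ∑ i ∈ s, (C (c i) : A F) • D θ i⁆
      = (if r ∈ s then -(C (c r) : A F) else 0) • D θ r := by
  rw [lie_sum']
  simp only [lie_smul', derivation_C, zero_smul, zero_add, S.H_lie_D, smul_ite, smul_zero,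
    Finset.sum_ite_eq']
  split_ifs
  · refine Derivation.ext fun x => ?_
    simp
  · simp

lemma H_lie_H (S : Setup θ) {p r : ℕ} (h : p ≠ r) : ⁅H θ p, H θ r⁆ = 0 := by
  rw [H, H, ← S.lie _ _ ((Fn.P p).smul _) ((Fn.P r).smul _), euler_lie, P_X, if_neg h, if_neg h]
  simp [S.zero]

lemma slices [CharZero F] (S : Setup θ) :
    ∃ y : ℕ → A F, (∀ i p, D θ i (y p) = if i = p then 1 else 0) ∧
      ∀ r, H θ r = y r • D θ r := by
  classical
  obtain ⟨y, hy⟩ := S.slices0
  have key : ∀ r, ∃ c : F, H θ r = (y r + C c) • D θ r := by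
    intro r
    obtain ⟨s, c, hc⟩ := S.central (w := H θ r - y r • D θ r)
      ((S.fn _ ((Fn.P r).smul _)).sub ((S.D_fn r).smul _)) (fun i => by
        rw [lie_sub', H, S.D_lie_X, lie_smul', S.D_lie_D, hy]
        split_ifs <;> simp)
    have h1 : ∀ p ∈ s, p ≠ r → c p = 0 := by
      intro p hp hpr
      have e := S.H_lie_const p s c
      rw [← hc, lie_sub', S.H_lie_H hpr, lie_smul', S.H_lie_D, if_neg (Ne.symm hpr), if_pos hp,
        smul_zero, add_zero, zero_sub] at e
      have e2 : (-(C (c p) : A F)) • D θ p = ∑ i ∈ {r}, (-(H θ p (y r))) • D θ i := by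
        rw [Finset.sum_singleton, ← e]
        refine Derivation.ext fun x => ?_
        simp
      have := (S.coef e2).1
      rw [if_neg (by simpa using hpr)] at this
      simpa using this
    refine ⟨if r ∈ s then c r else 0, ?_⟩
    rw [add_smul, ← sub_eq_iff_eq_add', hc]
    by_cases hr : r ∈ s
    · rw [if_pos hr, Finset.sum_eq_single_of_mem r hr]
      intro p hp hpr
      rw [h1 p hp hpr, C_0, zero_smul]
    · rw [if_neg hr, C_0, zero_smul]
      refine Finset.sum_eq_zero fun p hp => ?_
      rw [h1 p hp (fun e => hr (e ▸ hp)), C_0, zero_smul]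
  choose c hc using key
  refine ⟨fun r => y r + C (c r), fun i p => ?_, hc⟩
  rw [map_add, hy, derivation_C, add_zero]

end Setup

lemma D_aeval {θ : Der F → Der F} {y : ℕ → A F}
    (hy : ∀ i p, D θ i (y p) = if i = p then 1 else 0) (i : ℕ) (f : A F) :
    D θ i (aeval y f) = aeval y ((P i : Der F) f) := by
  induction f using MvPolynomial.induction_on with
  | C a => simp
  | add p q hp hq => simp only [map_add, hp, hq]
  | mul_X p n hp =>
    rw [map_mul, aeval_X, Derivation.leibniz, Derivation.leibniz, hp, hy, P_X]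
    split_ifs <;> simp

namespace Setup

variable {θ : Der F → Der F}

lemma monomial_eq [CharZero F] (S : Setup θ) {y : ℕ → A F}
    (hy : ∀ i p, D θ i (y p) = if i = p then 1 else 0) (hH : ∀ r, H θ r = y r • D θ r) :
    ∀ (n : ℕ) (α : ℕ →₀ ℕ), α.degree = n → ∀ (a : F) (k : ℕ),
      θ ((monomial α a : A F) • (P k : Der F)) = aeval y (monomial α a : A F) • D θ k := by
  classical
  intro n
  induction n using Nat.strong_induction_on with
  | _ n ih =>
  intro α hα a k
  by_cases h0 : α = 0
  · subst h0
    rw [monomial_zero', S.Csmul _ (Fn.P k)]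
    simp [D]
  set T := θ ((monomial α a : A F) • (P k : Der F)) - aeval y (monomial α a : A F) • D θ k with hT
  obtain ⟨s, c, hc⟩ := S.central (w := T)
    ((S.fn _ ((Fn.P k).smul _)).sub ((S.D_fn k).smul _)) (fun i => by
      rw [hT, lie_sub', S.D_lie_smul, lie_smul', S.D_lie_D, smul_zero, add_zero, D_aeval hy,
        sub_eq_zero, pderiv_monomial]
      by_cases hi : α i = 0
      · simp [hi, S.zero]
      · refine ih _ ?_ _ rfl _ _
        have hle : Finsupp.single i 1 ≤ α := by
          rw [Finsupp.single_le_iff]; exact Nat.one_le_iff_ne_zero.2 hi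
        have := congrArg Finsupp.degree (tsub_add_cancel_of_le hle)
        rw [map_add, Finsupp.degree_single] at this
        omega)
  have hw : ∀ r, ⁅H θ r, T⁆ = (C ((α r : F) - if r = k then 1 else 0) : A F) • T := by
    intro r
    have e1 : (X r * P r (monomial α a : A F) - if r = k then monomial α a else 0)
        = (C ((α r : F) - if r = k then 1 else 0) : A F) * monomial α a := by
      rw [X_mul_pderiv_monomial]
      split_ifs <;> simp [sub_mul]
    have e2 : ⁅H θ r, θ ((monomial α a : A F) • (P k : Der F))⁆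
        = (C ((α r : F) - if r = k then 1 else 0) : A F) •
          θ ((monomial α a : A F) • (P k : Der F)) := by
      rw [H, ← S.lie _ _ ((Fn.P r).smul _) ((Fn.P k).smul _), euler_lie, e1, mul_smul,
        S.Csmul _ ((Fn.P k).smul _)]
    have e3 : ⁅H θ r, aeval y (monomial α a : A F) • D θ k⁆
        = (C ((α r : F) - if r = k then 1 else 0) : A F) •
          (aeval y (monomial α a : A F) • D θ k) := by
      have e4 := congrArg (aeval y) e1
      rw [map_sub, map_mul, aeval_X, map_mul, aeval_C, algebraMap_eq] at e4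
      rw [lie_smul', S.H_lie_D, smul_smul, ← e4, hH, Derivation.smul_apply, D_aeval hy,
        smul_eq_mul, sub_smul']
      by_cases h : r = k
      · subst h
        refine Derivation.ext fun x => ?_
        simp [sub_eq_add_neg]
      · simp [h, Ne.symm h]
    rw [hT, lie_sub', e2, e3, smul_sub]
  have hco : ∀ r, ((if r ∈ s then -(C (c r) : A F) else 0) =
      if r ∈ s then (C ((α r : F) - if r = k then 1 else 0) : A F) * C (c r) else 0) ∧
      ∀ i ∈ s, i ≠ r → (C ((α r : F) - if r = k then 1 else 0) : A F) * C (c i) = 0 := by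
    intro r
    apply S.coef (a := fun i => (C ((α r : F) - if r = k then 1 else 0) : A F) * C (c i))
    rw [← S.H_lie_const, ← hc, hw, hc, Finset.smul_sum]
    simp only [smul_smul]
  have hz : ∀ r ∈ s, c r = 0 := by
    intro r hr
    have e := (hco r).1
    rw [if_pos hr, if_pos hr, ← C_mul, ← C_neg, C_inj] at e
    by_cases hrk : r = k
    · subst hrk
      by_cases hαr : α r = 0
      · obtain ⟨j, hj⟩ : ∃ j, α j ≠ 0 := by
          by_contra hh
          push Not at hh
          exact h0 (Finsupp.ext hh)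
        have hjr : r ≠ j := fun e => hj (e ▸ hαr)
        have e' := (hco j).2 r hr hjr
        rw [if_neg (Ne.symm hjr), ← C_mul, sub_zero, C_eq_zero] at e'
        exact (mul_eq_zero.1 e').resolve_left (Nat.cast_ne_zero.2 hj)
      · rw [if_pos rfl] at e
        have : (α r : F) * c r = 0 := by linear_combination -e
        exact (mul_eq_zero.1 this).resolve_left (Nat.cast_ne_zero.2 hαr)
    · rw [if_neg hrk] at e
      have : ((α r : F) + 1) * c r = 0 := by linear_combination -e
      exact (mul_eq_zero.1 this).resolve_left (Nat.cast_add_one_ne_zero _)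
  rw [← sub_eq_zero, ← hT, hc]
  exact Finset.sum_eq_zero fun i hi => by rw [hz i hi, C_0, zero_smul]

lemma smul_P_eq [CharZero F] (S : Setup θ) {y : ℕ → A F}
    (hy : ∀ i p, D θ i (y p) = if i = p then 1 else 0) (hH : ∀ r, H θ r = y r • D θ r)
    (f : A F) (k : ℕ) : θ (f • (P k : Der F)) = aeval y f • D θ k := by
  induction f using MvPolynomial.induction_on' with
  | monomial α a => exact S.monomial_eq hy hH _ α rfl a k
  | add p q hp hq =>
    rw [add_smul, S.add _ _ ((Fn.P k).smul _) ((Fn.P k).smul _), hp, hq, map_add, add_smul]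

lemma theta_eq [CharZero F] (S : Setup θ) {y : ℕ → A F}
    (hy : ∀ i p, D θ i (y p) = if i = p then 1 else 0) (hH : ∀ r, H θ r = y r • D θ r)
    {d : Der F} (hd : Fn d) : θ d = ∑ j ∈ hd.supp, aeval y (d (X j)) • D θ j := by
  conv_lhs => rw [eq_sum hd]
  rw [S.sum _ _ fun i _ => (Fn.P i).smul _]
  exact Finset.sum_congr rfl fun j _ => S.smul_P_eq hy hH _ _

theorem main [CharZero F] (S : Setup θ) :
    ∃ φ : A F ≃ₐ[F] A F,
      (∀ n : ℕ, Set.Finite {i : ℕ | n ∈ (φ (X i)).vars} ∧
                Set.Finite {i : ℕ | n ∈ (φ.symm (X i)).vars}) ∧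
      ∀ d : Der F, Fn d → ∀ f : A F, θ d f = φ (d (φ.symm f)) := by
  classical
  obtain ⟨y, hy, hH⟩ := S.slices
  have hinj : Function.Injective (aeval y : A F →ₐ[F] A F) := by
    rw [injective_iff_map_eq_zero]
    intro f hf
    have := S.smul_P_eq hy hH f 0
    rw [hf, zero_smul] at this
    exact smul_eq_zero' (S.eq_zero ((Fn.P 0).smul f) this) (P_ne_zero 0)
  have hsurj : Function.Surjective (aeval y : A F →ₐ[F] A F) := by
    intro a
    obtain ⟨u, hu, ha⟩ := S.surj _ ((S.D_fn 0).smul a)
    rw [S.theta_eq hy hH hu] at ha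
    have := (S.coef ha.symm).1
    split_ifs at this
    · exact ⟨_, this.symm⟩
    · exact ⟨0, by simp [this]⟩
  let φ : A F ≃ₐ[F] A F := AlgEquiv.ofBijective (aeval y) ⟨hinj, hsurj⟩
  have hφ : ∀ f, φ f = aeval y f := fun f => rfl
  have hconj : ∀ d : Der F, Fn d → ∀ g : A F, θ d (φ g) = φ (d g) := by
    intro d hd g
    rw [S.theta_eq hy hH hd, sum_apply', hφ, hφ]
    conv_rhs => rw [eq_sum hd, sum_apply', map_sum]
    refine Finset.sum_congr rfl fun j _ => ?_
    rw [Derivation.smul_apply, Derivation.smul_apply, D_aeval hy, smul_eq_mul, smul_eq_mul,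
      map_mul]
  refine ⟨φ, fun n => ⟨?_, ?_⟩, fun d hd f => ?_⟩
  · obtain ⟨d, hd, hdn⟩ := S.surj _ (Fn.P n)
    refine Set.Finite.subset hd fun i hi h => ?_
    refine notMem_vars (n := n) ?_ hi
    rw [← hdn, hconj d hd, h, map_zero]
  · refine Set.Finite.subset (S.D_fn n) fun i hi h => ?_
    refine notMem_vars (n := n) ?_ hi
    have := hconj _ (Fn.P n) (φ.symm (X i))
    rw [φ.apply_symm_apply] at this
    exact φ.injective (by rw [← this, map_zero]; exact h)
  · rw [← hconj d hd, φ.apply_symm_apply]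

end Setup

end Pool.Agent.H534Z.WInf
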