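import Mathlib

set_option autoImplicit false

namespace Pool.Agent.H534Z.Zud

open PowerSeries Filter Topology

abbrev R := ℚ⟦X⟧

def NN (f : R) : Prop := ∀ n, 0 ≤ coeff n f

lemma NN.mul {f g : R} (hf : NN f) (hg : NN g) : NN (f * g) := fun n => by
  rw [coeff_mul]
  exact Finset.sum_nonneg fun p _ => mul_nonneg (hf _) (hg _)

lemma NN.add {f g : R} (hf : NN f) (hg : NN g) : NN (f + g) := fun n => by
  rw [map_add]; exact add_nonneg (hf _) (hg _)

lemma NN.one : NN 1 := fun n => by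
  rw [coeff_one]; split_ifs <;> norm_num

lemma NN.X : NN X := fun n => by
  rw [coeff_X]; split_ifs <;> norm_num

lemma NN.C {c : ℚ} (hc : 0 ≤ c) : NN (C c) := fun n => by
  rw [coeff_C]; split_ifs
  · exact hc
  · exact le_rfl

noncomputable def Φ (p : R × R) : R × R :=
  (1 + X * (C (1 / 12) * (p.1 * p.1 * p.2)), 1 + X * (C (1 / 18) * (p.1 * p.2 * p.2)))

noncomputable def it : ℕ → R × R
  | 0 => (1, 1)
  | m + 1 => Φ (it m)

lemma Φ_dvd {m : ℕ} {p q : R × R} (h1 : X ^ m ∣ p.1 - q.1) (h2 : X ^ m ∣ p.2 - q.2) :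
    X ^ (m + 1) ∣ (Φ p).1 - (Φ q).1 ∧ X ^ (m + 1) ∣ (Φ p).2 - (Φ q).2 := by
  obtain ⟨u, hu⟩ := h1
  obtain ⟨v, hv⟩ := h2
  have e1 : p.1 = q.1 + X ^ m * u := by rw [← hu]; ring
  have e2 : p.2 = q.2 + X ^ m * v := by rw [← hv]; ring
  constructor
  · refine ⟨C (1 / 12) * (u * p.1 * p.2 + q.1 * u * p.2 + q.1 * q.1 * v), ?_⟩
    simp only [Φ]
    rw [e1, e2]; ring
  · refine ⟨C (1 / 18) * (u * p.2 * p.2 + q.1 * v * p.2 + q.1 * q.2 * v), ?_⟩
    simp only [Φ]
    rw [e1, e2]; ring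

lemma it_succ_dvd : ∀ m, X ^ m ∣ (it (m + 1)).1 - (it m).1 ∧ X ^ m ∣ (it (m + 1)).2 - (it m).2
  | 0 => by simp
  | m + 1 => Φ_dvd (it_succ_dvd m).1 (it_succ_dvd m).2

lemma it_dvd {m k : ℕ} (h : m ≤ k) :
    X ^ m ∣ (it k).1 - (it m).1 ∧ X ^ m ∣ (it k).2 - (it m).2 := by
  induction h with
  | refl => simp
  | @step k hk ih =>
    have a := (pow_dvd_pow X hk).trans (it_succ_dvd k).1
    have b := (pow_dvd_pow X hk).trans (it_succ_dvd k).2
    exact ⟨by simpa using dvd_add a ih.1, by simpa using dvd_add b ih.2⟩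

lemma it_nn : ∀ m, NN (it m).1 ∧ NN (it m).2
  | 0 => ⟨NN.one, NN.one⟩
  | m + 1 =>
    ⟨NN.one.add (NN.X.mul ((NN.C (by norm_num)).mul
        (((it_nn m).1.mul (it_nn m).1).mul (it_nn m).2))),
     NN.one.add (NN.X.mul ((NN.C (by norm_num)).mul
        (((it_nn m).1.mul (it_nn m).2).mul (it_nn m).2)))⟩

noncomputable def lim : R × R :=
  (mk fun n => coeff n (it (n + 1)).1, mk fun n => coeff n (it (n + 1)).2)

lemma lim_dvd (m : ℕ) : X ^ m ∣ lim.1 - (it m).1 ∧ X ^ m ∣ lim.2 - (it m).2 := by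
  constructor
  · rw [X_pow_dvd_iff]
    intro n hn
    have := X_pow_dvd_iff.1 (it_dvd (show n + 1 ≤ m from hn)).1 n (Nat.lt_succ_self n)
    rw [map_sub] at this ⊢
    simp only [lim, coeff_mk]
    linarith
  · rw [X_pow_dvd_iff]
    intro n hn
    have := X_pow_dvd_iff.1 (it_dvd (show n + 1 ≤ m from hn)).2 n (Nat.lt_succ_self n)
    rw [map_sub] at this ⊢
    simp only [lim, coeff_mk]
    linarith

lemma lim_fix : Φ lim = lim := by
  have key : ∀ m, X ^ (m + 1) ∣ (Φ lim).1 - lim.1 ∧ X ^ (m + 1) ∣ (Φ lim).2 - lim.2 := by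
    intro m
    have a := Φ_dvd (lim_dvd m).1 (lim_dvd m).2
    have b := lim_dvd (m + 1)
    exact ⟨by simpa [it] using dvd_sub a.1 b.1, by simpa [it] using dvd_sub a.2 b.2⟩
  ext n
  · have := X_pow_dvd_iff.1 (key n).1 n (Nat.lt_succ_self n)
    rw [map_sub] at this; linarith
  · have := X_pow_dvd_iff.1 (key n).2 n (Nat.lt_succ_self n)
    rw [map_sub] at this; linarith

lemma lim_nn : NN lim.1 ∧ NN lim.2 :=
  ⟨fun n => by simpa [lim] using (it_nn (n + 1)).1 n,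
   fun n => by simpa [lim] using (it_nn (n + 1)).2 n⟩

/-- the inverse series of `t (2 - t) (3 - t)` -/
noncomputable def T : R := X * (C (1 / 6) * (lim.1 * lim.2))

lemma T_nn : NN T := NN.X.mul ((NN.C (by norm_num)).mul (lim_nn.1.mul lim_nn.2))

lemma T_eq : T ^ 3 - 5 * T ^ 2 + 6 * T = X := by
  have h1 : lim.1 = 1 + X * (C (1 / 12) * (lim.1 * lim.1 * lim.2)) :=
    (congrArg Prod.fst lim_fix).symm
  have h2 : lim.2 = 1 + X * (C (1 / 18) * (lim.1 * lim.2 * lim.2)) :=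
    (congrArg Prod.snd lim_fix).symm
  have c1 : (C (1 / 6 : ℚ) : R) * 6 = 1 := by
    rw [show (6 : R) = C (6 : ℚ) from (map_ofNat C 6).symm, ← map_mul]; norm_num
  have c2 : (C (1 / 12 : ℚ) : R) * 2 = C (1 / 6 : ℚ) := by
    rw [show (2 : R) = C (2 : ℚ) from (map_ofNat C 2).symm, ← map_mul]; norm_num
  have c3 : (C (1 / 18 : ℚ) : R) * 3 = C (1 / 6 : ℚ) := by
    rw [show (3 : R) = C (3 : ℚ) from (map_ofNat C 3).symm, ← map_mul]; norm_num
  have g1 : lim.1 * (2 - T) = 2 := by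
    rw [T, ← c2]; linear_combination 2 * h1
  have g2 : lim.2 * (3 - T) = 3 := by
    rw [T, ← c3]; linear_combination 3 * h2
  have : T * ((2 - T) * (3 - T)) = X * (C (1 / 6) * ((lim.1 * (2 - T)) * (lim.2 * (3 - T)))) := by
    have hT : T = X * (C (1 / 6) * (lim.1 * lim.2)) := rfl
    linear_combination ((2 - T) * (3 - T)) * hT
  rw [g1, g2] at this
  linear_combination this + X * c1

lemma T_ode : (27 * X ^ 2 - 40 * X - 36) * d⁄dX ℚ (d⁄dX ℚ T) + (27 * X - 20) * d⁄dX ℚ T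
    = 3 * T - 5 := by
  have h1 := congrArg (d⁄dX ℚ) T_eq
  have n5 : d⁄dX ℚ (5 : R) = 0 := by exact_mod_cast (d⁄dX ℚ).map_natCast 5
  have n6 : d⁄dX ℚ (6 : R) = 0 := by exact_mod_cast (d⁄dX ℚ).map_natCast 6
  have n3 : d⁄dX ℚ (3 : R) = 0 := by exact_mod_cast (d⁄dX ℚ).map_natCast 3
  have n10 : d⁄dX ℚ (10 : R) = 0 := by exact_mod_cast (d⁄dX ℚ).map_natCast 10
  have e1 : (3 * T ^ 2 - 10 * T + 6) * d⁄dX ℚ T = 1 := by
    simp only [map_add, map_sub, Derivation.leibniz, Derivation.leibniz_pow, n5, n6,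
      derivative_X, smul_eq_mul, nsmul_eq_mul] at h1
    push_cast at h1
    linear_combination h1
  have h2 := congrArg (d⁄dX ℚ) e1
  have e2 : (3 * T ^ 2 - 10 * T + 6) * d⁄dX ℚ (d⁄dX ℚ T) + (6 * T - 10) * (d⁄dX ℚ T) ^ 2 = 0 := by
    simp only [map_add, map_sub, Derivation.leibniz, Derivation.leibniz_pow, n3, n6, n10,
      Derivation.map_one_eq_zero, smul_eq_mul, nsmul_eq_mul] at h2
    push_cast at h2
    linear_combination h2
  set A := d⁄dX ℚ T
  set B := d⁄dX ℚ A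
  rw [← T_eq]
  linear_combination (3 * T ^ 2 - 10 * T - 1) * (3 * T ^ 2 - 10 * T + 6) * e2
    + (3 * T - 5 - (3 * T ^ 2 - 10 * T - 1) * (6 * T - 10) * A) * e1

noncomputable def v (n : ℕ) : ℚ := coeff n T

lemma v_rec (n : ℕ) : 36 * ((n : ℚ) + 3) * (n + 2) * v (n + 3)
    = -20 * ((n : ℚ) + 2) * (2 * n + 3) * v (n + 2) + (27 * ((n : ℚ) + 1) ^ 2 - 3) * v (n + 1) := by
  have h := congrArg (coeff (n + 1)) T_ode
  have k : ∀ (c : ℕ) [c.AtLeastTwo] (f : R) (m : ℕ),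
      coeff m ((OfNat.ofNat c : R) * f) = (OfNat.ofNat c : ℚ) * coeff m f := by
    intro c _ f m
    rw [show (OfNat.ofNat c : R) = C (OfNat.ofNat c : ℚ) from (map_ofNat C c).symm, coeff_C_mul]
  have h5 : coeff (n + 1) (5 : R) = 0 := by
    rw [show (5 : R) = C (5 : ℚ) from (map_ofNat C 5).symm, coeff_C, if_neg (Nat.succ_ne_zero n)]
  have hX2 : coeff (n + 1) (X ^ 2 * d⁄dX ℚ (d⁄dX ℚ T)) = (n + 1) * n * v (n + 1) := by
    rcases n with _ | n
    · rw [coeff_X_pow_mul']; simp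
    · rw [show n + 1 + 1 = n + 2 from rfl, coeff_X_pow_mul, coeff_derivative, coeff_derivative, v]
      push_cast; ring
  simp only [sub_mul, mul_assoc, map_add, map_sub, k, h5, hX2, coeff_succ_X_mul,
    coeff_derivative] at h
  simp only [v] at h ⊢
  push_cast at h
  linear_combination -h

lemma v_one : v 1 = 1 / 6 := by
  have h1 : lim.1 = 1 + X * (C (1 / 12) * (lim.1 * lim.1 * lim.2)) :=
    (congrArg Prod.fst lim_fix).symm
  have h2 : lim.2 = 1 + X * (C (1 / 18) * (lim.1 * lim.2 * lim.2)) :=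
    (congrArg Prod.snd lim_fix).symm
  have a : constantCoeff lim.1 = 1 := by rw [h1]; simp
  have b : constantCoeff lim.2 = 1 := by rw [h2]; simp
  rw [v, T, coeff_succ_X_mul]
  simp [a, b]

lemma v_nn (n : ℕ) : 0 ≤ v n := T_nn n

lemma v_pos : ∀ n, 0 < v (n + 1)
  | 0 => by rw [zero_add, v_one]; norm_num
  | n + 1 => by
      have ih := v_pos n
      by_contra h
      have h0 : v (n + 2) = 0 := le_antisymm (not_lt.1 h) (v_nn _)
      have h1 := v_rec (n + 1)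
      have h2 := v_rec n
      have h3 : v (n + 3) ≤ 0 := by
        have a := v_nn (n + 1 + 3)
        rw [show n + 1 + 1 = n + 2 from rfl, h0, show n + 1 + 2 = n + 3 from rfl] at h1
        by_contra hh
        have hh := not_le.1 hh
        push_cast at h1
        have : (0 : ℚ) ≤ 36 * ((n : ℚ) + 1 + 3) * (n + 1 + 2) * v (n + 1 + 3) := by positivity
        have : (0 : ℚ) < 20 * ((n : ℚ) + 1 + 2) * (2 * (n + 1) + 3) * v (n + 3) := by positivity
        linarith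
      rw [h0] at h2
      have a : (0 : ℚ) < (27 * ((n : ℚ) + 1) ^ 2 - 3) * v (n + 1) := by
        apply mul_pos _ ih
        have : (0 : ℚ) ≤ n := Nat.cast_nonneg n
        nlinarith
      have b : 36 * ((n : ℚ) + 3) * (n + 2) * v (n + 3) ≤ 0 :=
        mul_nonpos_of_nonneg_of_nonpos (by positivity) h3
      linarith

end Pool.Agent.H534Z.Zud
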