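import Pool.Agent.H534Z.Zud

set_option autoImplicit false

namespace Pool.Agent.H534Z.Zud

open Filter Topology

lemma fwd {e ε : ℕ → ℝ} (h0 : ∀ n, 0 ≤ e n) (hε : Tendsto ε atTop (𝓝 0))
    (h : ∀ᶠ n in atTop, e (n + 1) ≤ 3 / 4 * e n + ε n) : Tendsto e atTop (𝓝 0) := by
  rw [Metric.tendsto_atTop]
  intro δ hδ
  have h1 : ∀ᶠ n in atTop, ε n < δ / 8 := hε.eventually (gt_mem_nhds (by positivity))
  obtain ⟨N, hN⟩ := eventually_atTop.1 (h.and h1)
  have key : ∀ k, e (N + k) ≤ δ / 2 + (3 / 4) ^ k * e N := by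
    intro k
    induction k with
    | zero => simp; positivity
    | succ k ih =>
      obtain ⟨a, b⟩ := hN (N + k) (Nat.le_add_right _ _)
      rw [← add_assoc, pow_succ]
      nlinarith
  have h2 : Tendsto (fun k : ℕ => (3 / 4 : ℝ) ^ k * e N) atTop (𝓝 0) := by
    simpa using (tendsto_pow_atTop_nhds_zero_of_lt_one (r := (3 / 4 : ℝ)) (by norm_num)
      (by norm_num)).mul_const (e N)
  obtain ⟨K, hK⟩ := eventually_atTop.1 (h2.eventually (gt_mem_nhds (half_pos hδ)))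
  refine ⟨N + K, fun n hn => ?_⟩
  obtain ⟨k, rfl⟩ : ∃ k, n = N + k := ⟨n - N, by omega⟩
  rw [Real.dist_eq, sub_zero, abs_of_nonneg (h0 _)]
  have := key k
  have := hK k (by omega)
  linarith

lemma bwd {e ε : ℕ → ℝ} {M : ℝ} (h0 : ∀ n, 0 ≤ e n) (hM : ∀ᶠ n in atTop, e n ≤ M)
    (hε : Tendsto ε atTop (𝓝 0))
    (h : ∀ᶠ n in atTop, e n ≤ 3 / 4 * e (n + 1) + ε n) : Tendsto e atTop (𝓝 0) := by
  rw [Metric.tendsto_atTop]
  intro δ hδ
  have h1 : ∀ᶠ n in atTop, ε n < δ / 8 := hε.eventually (gt_mem_nhds (by positivity))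
  obtain ⟨N, hN⟩ := eventually_atTop.1 (h.and (h1.and hM))
  have key : ∀ k, ∀ n ≥ N, e n ≤ δ / 2 + (3 / 4) ^ k * M := by
    intro k
    induction k with
    | zero =>
      intro n hn
      have := (hN n hn).2.2
      simp; linarith
    | succ k ih =>
      intro n hn
      obtain ⟨a, b, -⟩ := hN n hn
      have := ih (n + 1) (by omega)
      rw [pow_succ]
      nlinarith
  have h2 : Tendsto (fun k : ℕ => (3 / 4 : ℝ) ^ k * M) atTop (𝓝 0) := by
    simpa using (tendsto_pow_atTop_nhds_zero_of_lt_one (r := (3 / 4 : ℝ)) (by norm_num)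
      (by norm_num)).mul_const M
  obtain ⟨K, hK⟩ := eventually_atTop.1 (h2.eventually (gt_mem_nhds (half_pos hδ)))
  refine ⟨N, fun n hn => ?_⟩
  rw [Real.dist_eq, sub_zero, abs_of_nonneg (h0 _)]
  have := key K n hn
  have := hK K le_rfl
  linarith

def Aq (n : ℕ) : ℚ := (9 * (n : ℚ) ^ 2 - 1) / (12 * (n + 2) * (n + 1))
def Bq (n : ℕ) : ℚ := 5 * (2 * (n : ℚ) + 1) / (9 * (n + 2))

lemma Aq_pos {n : ℕ} (hn : 1 ≤ n) : 0 < Aq n := by
  have : (1 : ℚ) ≤ n := by exact_mod_cast hn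
  exact div_pos (by nlinarith) (by positivity)

lemma Aq_le (n : ℕ) : Aq n ≤ 3 / 4 := by
  have : (0 : ℚ) ≤ n := Nat.cast_nonneg n
  rw [Aq, div_le_iff₀ (by positivity)]; nlinarith

lemma Bq_pos (n : ℕ) : 0 < Bq n := by unfold Bq; positivity

lemma Bq_ge {n : ℕ} (hn : 13 ≤ n) : 1 ≤ Bq n := by
  have : (13 : ℚ) ≤ n := by exact_mod_cast hn
  rw [Bq, le_div_iff₀ (by positivity)]; nlinarith

lemma inv_lim (c : ℝ) : Tendsto (fun n : ℕ => ((n : ℝ) + c)⁻¹) atTop (𝓝 0) :=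
  tendsto_inv_atTop_zero.comp (tendsto_atTop_add_const_right _ c tendsto_natCast_atTop_atTop)

lemma Aq_lim : Tendsto (fun n : ℕ => (Aq n : ℝ)) atTop (𝓝 (3 / 4)) := by
  have h : Tendsto (fun n : ℕ => (3 / 4 : ℝ) + 2 / 3 * ((n : ℝ) + 1)⁻¹
      - 35 / 12 * ((n : ℝ) + 2)⁻¹) atTop (𝓝 (3 / 4 + 2 / 3 * 0 - 35 / 12 * 0)) :=
    (tendsto_const_nhds.add ((inv_lim 1).const_mul _)).sub ((inv_lim 2).const_mul _)
  simp only [mul_zero, add_zero, sub_zero] at h
  refine h.congr fun n => ?_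
  simp only [Aq]; push_cast
  field_simp; ring

lemma Bq_lim : Tendsto (fun n : ℕ => (Bq n : ℝ)) atTop (𝓝 (10 / 9)) := by
  have h : Tendsto (fun n : ℕ => (10 / 9 : ℝ) - 5 / 3 * ((n : ℝ) + 2)⁻¹) atTop
      (𝓝 (10 / 9 - 5 / 3 * 0)) := tendsto_const_nhds.sub ((inv_lim 2).const_mul _)
  simp only [mul_zero, sub_zero] at h
  refine h.congr fun n => ?_
  simp only [Bq]; push_cast
  field_simp; ring

lemma v_rec' {n : ℕ} (hn : 1 ≤ n) : v (n + 2) = -Bq n * v (n + 1) + Aq n * v n := by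
  obtain ⟨m, rfl⟩ : ∃ m, n = m + 1 := ⟨n - 1, by omega⟩
  have := v_rec m
  simp only [Aq, Bq]; push_cast
  field_simp
  rw [show m + 1 + 2 = m + 3 from rfl, show m + 1 + 1 = m + 2 from rfl]
  linear_combination (3 : ℚ) * this

def s : ℕ → ℚ
  | 0 => 0
  | 1 => 1
  | n + 2 => Bq n * s (n + 1) + Aq n * s n

lemma s_pos : ∀ n, 0 < s (n + 1) ∧ 0 < s (n + 2)
  | 0 => ⟨by simp [s], by simp [s, Bq_pos]⟩
  | n + 1 => ⟨(s_pos n).2, by
      rw [show n + 1 + 2 = (n + 1) + 2 from rfl, s]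
      exact add_pos (mul_pos (Bq_pos _) (s_pos n).2) (mul_pos (Aq_pos (by omega)) (s_pos n).1)⟩

def w (n : ℕ) : ℚ := (-1) ^ n * s n

lemma w_rec (n : ℕ) : w (n + 2) = -Bq n * w (n + 1) + Aq n * w n := by
  simp only [w, s]; ring

noncomputable def lam : ℝ := (-10 + 7 * √7) / 18
noncomputable def L : ℝ := (10 + 7 * √7) / 18

lemma sq7 : √7 * √7 = 7 := Real.mul_self_sqrt (by norm_num)
lemma s7 : 2 < √7 := by
  rw [Real.lt_sqrt (by norm_num)]; norm_num
lemma lam_pos : 0 < lam := by unfold lam; linarith [s7]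
lemma L_ge : 1 ≤ L := by unfold L; linarith [s7]
lemma lamL : lam * L = 3 / 4 := by unfold lam L; linear_combination (49 / 324) * sq7
lemma L_eq : L = lam + 10 / 9 := by unfold lam L; ring

lemma frac_est {A x a y : ℝ} (hx : 1 ≤ x) (hy : 1 ≤ y) (ha : a = 3 / 4) :
    |A / x - a / y| ≤ |A - a| + 3 / 4 * |x - y| := by
  have e : A / x - a / y = (A - a) / x + a * (y - x) / (x * y) := by
    field_simp; ring
  rw [e]
  refine (abs_add_le _ _).trans (add_le_add ?_ ?_)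
  · rw [abs_div, abs_of_pos (by linarith : 0 < x)]
    exact div_le_self (abs_nonneg _) hx
  · have hxy : 1 ≤ x * y := by nlinarith
    rw [abs_div, abs_of_pos (by linarith : 0 < x * y), abs_mul, ha, abs_sub_comm y x,
      abs_of_pos (by norm_num : (0 : ℝ) < 3 / 4)]
    exact div_le_self (by positivity) hxy

lemma eps_lim : Tendsto (fun n : ℕ => |(Aq n : ℝ) - 3 / 4| + |(Bq n : ℝ) - 10 / 9|) atTop (𝓝 0) := by
  have a := (Aq_lim.sub_const (3 / 4)).abs
  have b := (Bq_lim.sub_const (10 / 9)).abs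
  simpa using a.add b

lemma v_pos' {n : ℕ} (hn : 1 ≤ n) : (0 : ℝ) < v n := by
  obtain ⟨m, rfl⟩ : ∃ m, n = m + 1 := ⟨n - 1, by omega⟩
  exact_mod_cast v_pos m

lemma s_pos' {n : ℕ} (hn : 1 ≤ n) : (0 : ℝ) < s n := by
  obtain ⟨m, rfl⟩ : ∃ m, n = m + 1 := ⟨n - 1, by omega⟩
  exact_mod_cast (s_pos m).1

lemma v_ratio : Tendsto (fun n : ℕ => ((v (n + 1) : ℝ) / (v n : ℝ))) atTop (𝓝 lam) := by
  rw [tendsto_iff_dist_tendsto_zero]
  simp only [Real.dist_eq]
  have hr : ∀ n ≥ 13, (v (n + 1) : ℝ) / v n = Aq n / ((v (n + 2) : ℝ) / v (n + 1) + Bq n) := by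
    intro n hn
    have a := v_pos' (n := n) (by omega)
    have b := v_pos' (n := n + 1) (by omega)
    have c := v_pos' (n := n + 2) (by omega)
    have d : (0 : ℝ) < Bq n := by exact_mod_cast Bq_pos n
    have e : (v (n + 2) : ℝ) = -Bq n * v (n + 1) + Aq n * v n := by
      exact_mod_cast v_rec' (n := n) (by omega)
    rw [div_eq_div_iff a.ne' (by positivity)]
    field_simp
    linear_combination e
  have hx : ∀ n ≥ 13, 1 ≤ (v (n + 2) : ℝ) / v (n + 1) + Bq n := by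
    intro n hn
    have b := v_pos' (n := n + 1) (by omega)
    have c := v_pos' (n := n + 2) (by omega)
    have d : (1 : ℝ) ≤ Bq n := by exact_mod_cast Bq_ge hn
    have := div_pos c b
    linarith
  refine bwd (M := 3 / 4 + lam) (fun n => abs_nonneg _) ?_ eps_lim ?_
  · filter_upwards [eventually_ge_atTop 13] with n hn
    have a := v_pos' (n := n) (by omega)
    have b := v_pos' (n := n + 1) (by omega)
    have h1 : (v (n + 1) : ℝ) / v n ≤ 3 / 4 := by
      rw [hr n hn]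
      have p : (0 : ℝ) < Aq n := by exact_mod_cast Aq_pos (n := n) (by omega)
      have q : (Aq n : ℝ) ≤ 3 / 4 := by
        have := (Rat.cast_le (K := ℝ)).2 (Aq_le n)
        simpa using this
      exact (div_le_self p.le (hx n hn)).trans q
    have := div_pos b a
    have := lam_pos
    rw [abs_le]; constructor <;> linarith
  · filter_upwards [eventually_ge_atTop 13] with n hn
    have hl : lam = (3 / 4) / L := by
      rw [eq_div_iff (by linarith [L_ge])]; exact lamL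
    have h1 := frac_est (A := Aq n) (hx n hn) L_ge rfl
    rw [← hr n hn, ← hl] at h1
    have h2 : |(v (n + 2) : ℝ) / v (n + 1) + Bq n - L|
        ≤ |(v (n + 2) : ℝ) / v (n + 1) - lam| + |(Bq n : ℝ) - 10 / 9| := by
      rw [L_eq]
      refine le_trans (le_of_eq ?_) (abs_add_le _ _)
      congr 1; ring
    have := abs_nonneg ((Bq n : ℝ) - 10 / 9)
    rw [show n + 1 + 1 = n + 2 from rfl]
    linarith

lemma s_ratio : Tendsto (fun n : ℕ => ((s (n + 1) : ℝ) / (s n : ℝ))) atTop (𝓝 L) := by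
  rw [tendsto_iff_dist_tendsto_zero]
  simp only [Real.dist_eq]
  have hr : ∀ n ≥ 1, (s (n + 2) : ℝ) / s (n + 1) = Bq n + Aq n / ((s (n + 1) : ℝ) / s n) := by
    intro n hn
    have a := s_pos' (n := n) (by omega)
    have b := s_pos' (n := n + 1) (by omega)
    rw [s]; push_cast
    field_simp
  refine fwd (fun n => abs_nonneg _) eps_lim ?_
  filter_upwards [eventually_ge_atTop 14] with n hn
  have hx : 1 ≤ (s (n + 1) : ℝ) / s n := by
    obtain ⟨m, rfl⟩ : ∃ m, n = m + 1 := ⟨n - 1, by omega⟩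
    rw [hr m (by omega)]
    have a := s_pos' (n := m) (by omega)
    have b := s_pos' (n := m + 1) (by omega)
    have d : (1 : ℝ) ≤ Bq m := by exact_mod_cast Bq_ge (n := m) (by omega)
    have p : (0 : ℝ) < Aq m := by exact_mod_cast Aq_pos (n := m) (by omega)
    have := div_pos p (div_pos b a)
    linarith
  have hl : lam = (3 / 4) / L := by
    rw [eq_div_iff (by linarith [L_ge])]; exact lamL
  have h1 := frac_est (A := Aq n) hx L_ge rfl
  rw [← hl] at h1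
  rw [show n + 1 + 1 = n + 2 from rfl, hr n (by omega)]
  have h2 : |(Bq n : ℝ) + Aq n / ((s (n + 1) : ℝ) / s n) - L|
      ≤ |(Aq n : ℝ) / ((s (n + 1) : ℝ) / s n) - lam| + |(Bq n : ℝ) - 10 / 9| := by
    rw [L_eq]
    refine le_trans (le_of_eq ?_) (abs_add_le _ _)
    congr 1; ring
  linarith

lemma w_ratio : Tendsto (fun n : ℕ => ((w (n + 1) : ℝ) / (w n : ℝ))) atTop (𝓝 (-L)) := by
  refine s_ratio.neg.congr fun n => ?_
  simp only [w]; push_cast
  have : ((-1 : ℝ)) ^ n ≠ 0 := pow_ne_zero _ (by norm_num)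
  rw [pow_succ, mul_assoc, mul_div_mul_left _ _ this]; ring

lemma indep (c d : ℚ) (h : ∀ᶠ n in atTop, c * v n + d * w n = 0) : c = 0 ∧ d = 0 := by
  obtain ⟨N, hN⟩ := eventually_atTop.1 h
  have h1 := hN (N + 1) (by omega)
  have h2 := hN (N + 2) (by omega)
  simp only [w] at h1 h2
  have a := v_pos N
  have b := v_pos (N + 1)
  obtain ⟨p, q⟩ := s_pos N
  have e : c * (v (N + 1) * s (N + 2) + v (N + 2) * s (N + 1)) = 0 := by
    linear_combination s (N + 2) * h1 + s (N + 1) * h2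
  have hc : c = 0 := (mul_eq_zero.1 e).resolve_right (by positivity)
  refine ⟨hc, ?_⟩
  rw [hc, zero_mul, zero_add] at h1
  exact (mul_eq_zero.1 h1).resolve_right (mul_ne_zero (pow_ne_zero _ (by norm_num)) p.ne')

lemma lam_irr : ¬ ∃ q : ℚ, (q : ℝ) = lam := by
  rintro ⟨q, hq⟩
  have h7 : Irrational (√((7 : ℕ) : ℝ)) := Nat.Prime.irrational_sqrt (by norm_num)
  apply h7
  refine ⟨(18 * q + 10) / 7, ?_⟩
  push_cast
  rw [hq, lam]; ring

open Polynomial in
lemma eval_frac (P Q : ℚ[X]) (x : ℚ) (hQ : Q.eval x ≠ 0) :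
    RatFunc.eval (RingHom.id ℚ) x (algebraMap _ (RatFunc ℚ) P / algebraMap _ (RatFunc ℚ) Q)
      = P.eval x / Q.eval x := by
  have hQ0 : Q ≠ 0 := by rintro rfl; simp at hQ
  set f := algebraMap _ (RatFunc ℚ) P / algebraMap _ (RatFunc ℚ) Q with hf
  have h1 : f.num * Q = P * f.denom := (RatFunc.num_mul_eq_mul_denom_iff hQ0).2 hf
  obtain ⟨c, hc⟩ := RatFunc.denom_div_dvd P Q
  have h2 : f.denom.eval x ≠ 0 := by
    intro h
    apply hQ
    rw [hc, eval_mul, ← hf, h, zero_mul]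
  have h3 := congrArg (eval x) h1
  rw [eval_mul, eval_mul] at h3
  rw [RatFunc.eval, eval₂_id, eval₂_id, div_eq_div_iff h2 hQ, h3]

open Polynomial in
noncomputable def aF : RatFunc ℚ :=
  algebraMap _ (RatFunc ℚ) (9 * (X - 2) ^ 2 - 1 : ℚ[X]) / algebraMap _ (RatFunc ℚ) (12 * X * (X - 1) : ℚ[X])

open Polynomial in
noncomputable def bF : RatFunc ℚ :=
  algebraMap _ (RatFunc ℚ) (-5 * (2 * X - 3) : ℚ[X]) / algebraMap _ (RatFunc ℚ) (9 * X : ℚ[X])

lemma aF_eval (n : ℕ) : RatFunc.eval (RingHom.id ℚ) ((n + 2 : ℕ) : ℚ) aF = Aq n := by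
  rw [aF, eval_frac]
  · simp [Aq]; ring_nf
  · simp; constructor
    · positivity
    · have : (0 : ℚ) ≤ n := Nat.cast_nonneg n
      intro h; linarith

lemma bF_eval (n : ℕ) : RatFunc.eval (RingHom.id ℚ) ((n + 2 : ℕ) : ℚ) bF = -Bq n := by
  rw [bF, eval_frac]
  · simp [Bq]; ring_nf
  · simp; positivity

end Pool.Agent.H534Z.Zud
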